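import Pool.Agent.MP_961ca8_al.H15.Spec

/-! The weight function and the segments. -/

namespace Pool.Agent.MP_961ca8_al.H15

namespace CL

structure Inv (r T : ℤ) (μ : ℤ → ℤ) (K E : ℕ) : Prop where
  zero : μ 0 = 0
  mono : ∀ a b, a ≤ b → μ a ≤ μ b
  up : ∀ a b, a ≤ b → μ b - μ a ≤ T * (b - a)
  lo : ∀ a b, (E : ℤ) ≤ a → a ≤ b → T * (b - a) ≤ μ b - μ a
  low : ∀ e : ℤ, 0 ≤ e → T * e - K ≤ μ e
  row : ∀ e : ℤ, -r < e → ∃ f : ℤ, ∀ l : ℤ, -f ≤ l → l < -f + 3 * (e + r) →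
    (-l ≤ 2 * e + K ∧ l - e ≤ 2 * e + K) ∧ 1 ≤ μ e - l ∧
      (-r < -l → μ (-l) + 2 * l < μ e + e) ∧ (-r < l - e → μ (l - e) + (l - e) < μ e - 2 * e)

theorem base (r : ℕ) : Inv r 4 (fun e => e + 3 * max 0 (e - 29 * r)) (87 * r) (29 * r) := by
  refine ⟨by omega, fun a b _ => by omega, fun a b _ => by omega, fun a b _ _ => by omega,
    fun e _ => by omega, fun e he => ?_⟩
  by_cases h : e ≤ 8 * r
  · exact ⟨5 * r + 3 * e, fun l _ _ => by omega⟩
  · exact ⟨2 * e + 4 * r, fun l _ _ => by omega⟩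

theorem step {r : ℕ} {T : ℤ} {μ : ℤ → ℤ} {K E : ℕ} (hT : 4 ≤ T) (h : Inv r T μ K E) :
    ∃ μ K E, Inv r (T + 1) μ K E := by
  obtain ⟨M, hM⟩ : ∃ M : ℕ, (T + 1) * ((T - 1) * (1 + 3 * r)) ≤ M := ⟨_, Int.self_le_toNat _⟩
  obtain ⟨c, hc⟩ : ∃ c : ℕ, c = 2 * (M + K + 2 * r + 3 * (E + 1)) + K := ⟨_, rfl⟩
  have m : ∀ a b, a ≤ b → μ a + max 0 (a - c) ≤ μ b + max 0 (b - c) := fun a b hab => by
    have := h.mono a b hab
    omega
  have u : ∀ a b, a ≤ b → μ b + max 0 (b - c) - (μ a + max 0 (a - c)) ≤ (T + 1) * (b - a) :=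
    fun a b hab => by
      have := h.up a b hab
      rw [add_mul]
      omega
  refine ⟨fun e => μ e + max 0 (e - c), K + c + 3 * r + 1, c + E, by have := h.zero; omega, m, u,
    fun a b ha hab => ?_, fun e he => ?_, fun e he => ?_⟩
  · have := h.lo a b (by omega) hab
    rw [add_mul]
    omega
  · have := h.low e he
    rw [add_mul]
    omega
  by_cases k : 2 * e + K ≤ c ∧ e ≤ c
  · obtain ⟨f, hf⟩ := h.row e he
    exact ⟨f, fun l h1 h2 => by have := hf l h1 h2; omega⟩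
  obtain ⟨y, y1, y2⟩ : ∃ y, 3 * e < (T + 1) * y ∧ (T + 1) * (y - 1) ≤ 3 * e :=
    ⟨3 * e / (T + 1) + 1, by
      rw [mul_comm (T + 1)]
      exact Int.lt_ediv_add_one_mul_self _ (by omega), by
      rw [add_sub_cancel_right]
      exact Int.mul_ediv_self_le (by omega)⟩
  have e0 : (M : ℤ) + K + 2 * r + 3 * (E + 1) < e := by omega
  have y0 : 0 < y := pos_of_mul_pos_left (b := T + 1) (by rw [mul_comm]; omega) (by omega)
  have y3 : 5 * (y - 1) ≤ 3 * e := le_trans (by nlinarith) y2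
  have y4 : (T - 1) * (y + 3 * r) < 3 * e :=
    lt_of_mul_lt_mul_left (a := T + 1) (by nlinarith) (by omega)
  refine ⟨e + y + 3 * r, fun l h1 h2 => ⟨by omega, ?_, fun h3 => ?_, fun _ => ?_⟩⟩
  · have := h.low e (by omega)
    have : 4 * e ≤ T * e := by nlinarith
    omega
  · rcases le_total e (-l) with h4 | h4
    · have := u e (-l) h4
      have : (T - 1) * (-l - e) ≤ (T - 1) * (y + 3 * r) := by nlinarith
      nlinarith
    · have := m _ _ h4
      omega
  · have := m (l - e) (e - y) (by omega)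
    have := h.lo (e - y) e (by omega) (by omega)
    rw [sub_sub_cancel] at this
    rw [add_mul] at y1
    omega

end CL

open CL in
theorem cl : CLStmt := by
  intro r T
  obtain ⟨μ, K, E, h⟩ : ∃ μ K E, Inv r (T + 4) μ K E := by
    induction T with
    | zero => exact ⟨_, _, _, base r⟩
    | succ T ih =>
      obtain ⟨μ, K, E, h⟩ := ih
      rw [Nat.cast_succ, add_right_comm]
      exact step (by omega) h
  refine ⟨μ, K, h.zero, fun e he => ?_, h.row⟩
  have := h.low e he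
  rw [add_mul] at this
  omega

end Pool.Agent.MP_961ca8_al.H15
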